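import Pool.Agent.V11108.HolderMmdim

/-!
# Interval maps that are Hölder for every exponent have metric mean dimension zero
-/

open Pool.Agent.V11108.HolderMmdim

namespace Pool.Agent.Results.MP_d02d3c_an.AllHolderMmdimZero

/-- **Main result.** If `φ : [0,1] → [0,1]` is `α`-Hölder continuous for every `α ∈ (0,1)`, then
its upper metric mean dimension is `0`. -/
theorem result (φ : I → I) (hφ : ∀ α : ℝ, 0 < α → α < 1 → IsHolder α φ) :
    upperMmdim φ = 0 := by
  apply le_antisymm _ (upperMmdim_nonneg φ)
  have h : ∀ b : ℝ, 0 < b → upperMmdim φ ≤ ((b : ℝ) : EReal) := by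
    intro b hb
    have hm : 0 < min b (1 / 2) := lt_min hb (by norm_num)
    have hm2 : min b (1 / 2) ≤ 1 / 2 := min_le_right _ _
    have h1 := upperMmdim_le (φ := φ) (α := 1 - min b (1 / 2)) (by linarith) (by linarith)
      (hφ _ (by linarith) (by linarith))
    refine h1.trans ?_
    rw [EReal.coe_le_coe_iff]
    have := min_le_left b (1 / 2)
    linarith
  by_contra hcon
  push Not at hcon
  obtain ⟨c, hc0, hc⟩ := EReal.lt_iff_exists_real_btwn.mp hcon
  have hc0' : 0 < c := by exact_mod_cast hc0
  exact absurd (h c hc0') (not_le.mpr hc)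

end Pool.Agent.Results.MP_d02d3c_an.AllHolderMmdimZero
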